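import Mathlib

namespace Pool.Agent.Lib.MP_1ed8ce_co

open SimpleGraph

/-- The least number of edges whose deletion leaves a bipartite graph. -/
noncomputable def gamma2 {V : Type} (G : SimpleGraph V) : ℕ :=
  sInf {m : ℕ | ∃ F : Finset (Sym2 V), (F : Set (Sym2 V)) ⊆ G.edgeSet ∧ F.card = m ∧
    (G.deleteEdges (F : Set (Sym2 V))).IsBipartite}

/-- The subgraph induced on `S` is connected and has no cut vertex. -/
def NoCutVertex {V : Type} (G : SimpleGraph V) (S : Set V) : Prop :=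
  (G.induce S).Connected ∧ ∀ v ∈ S, (G.induce (S \ {v})).Preconnected

/-- `S` is the vertex set of a block: maximal among connected sets with no cut vertex. -/
def IsBlock {V : Type} (G : SimpleGraph V) (S : Set V) : Prop :=
  Maximal (NoCutVertex G) S

/-- `G` is one of the graphs `T**(r, n)` with `r = 2k + b`: connected, with exactly three blocks,
a balanced complete bipartite graph on `n - r + 2` vertices, a `K_{2k}` and a `K_b`. -/
def IsTss (k b n : ℕ) (G : SimpleGraph (Fin n)) : Prop :=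
  G.Connected ∧ ∃ S₁ S₂ S₃ : Set (Fin n), S₁ ≠ S₂ ∧ S₁ ≠ S₃ ∧ S₂ ≠ S₃ ∧
    (∀ S, IsBlock G S ↔ S = S₁ ∨ S = S₂ ∨ S = S₃) ∧
    Nonempty (G.induce S₁ ≃g completeBipartiteGraph (Fin ((n - (2 * k + b) + 2) / 2))
      (Fin ((n - (2 * k + b) + 2 + 1) / 2))) ∧
    Nonempty (G.induce S₂ ≃g (⊤ : SimpleGraph (Fin (2 * k)))) ∧
    Nonempty (G.induce S₃ ≃g (⊤ : SimpleGraph (Fin b)))

end Pool.Agent.Lib.MP_1ed8ce_co
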