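import Pool.Agent.Lib.MP_1ed8ce_co.Defs

namespace Pool.Agent.Lib.MP_1ed8ce_co

open SimpleGraph

/-- Classes: 0,1,2 with 5 form a `K4`; 3,4 with 6 form a triangle; 0 is joined to 3 and 4;
5 lies in the part `X`, 6 in the part `Y`, 7 is the rest of `X` and 8 the rest of `Y`. -/
def qE : List (Fin 9 × Fin 9) :=
  [(0,1),(0,2),(1,2),(0,5),(1,5),(2,5),(3,4),(3,6),(4,6),(0,3),(0,4),(5,8),(6,7),(7,8)]

def qa (p q : Fin 9) : Bool := decide ((p, q) ∈ qE ∨ (q, p) ∈ qE)

theorem qa_symm : ∀ p q, qa p q = qa q p := by decide +kernel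
theorem qa_irrefl : ∀ p, qa p p = false := by decide +kernel

set_option synthInstance.maxSize 2000 in
theorem qa_c5' : ∀ a b : Fin 9, qa a b = true → ∀ c, qa b c = true → ∀ d, qa c d = true →
    ∀ e, qa d e = true → qa e a = true →
    (a = c ∧ a.val < 7) ∨ (a = d ∧ a.val < 7) ∨ (b = d ∧ b.val < 7) ∨ (b = e ∧ b.val < 7) ∨
      (c = e ∧ c.val < 7) := by
  decide +kernel

theorem qa_c5 (a b c d e : Fin 9) (h1 : qa a b = true) (h2 : qa b c = true) (h3 : qa c d = true)
    (h4 : qa d e = true) (h5 : qa e a = true) :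
    (a = c ∧ a.val < 7) ∨ (a = d ∧ a.val < 7) ∨ (b = d ∧ b.val < 7) ∨ (b = e ∧ b.val < 7) ∨
      (c = e ∧ c.val < 7) := qa_c5' a b h1 c h2 d h3 e h4 h5

variable {V : Type}

def blow (φ : V → Fin 9) : SimpleGraph V where
  Adj v w := qa (φ v) (φ w) = true
  symm := ⟨fun v w h => by rw [qa_symm]; exact h⟩
  loopless := ⟨fun v h => by rw [qa_irrefl] at h; exact Bool.noConfusion h⟩

theorem blow_adj (φ : V → Fin 9) (v w : V) : (blow φ).Adj v w ↔ qa (φ v) (φ w) = true := Iff.rfl

instance (φ : V → Fin 9) : DecidableRel (blow φ).Adj := fun v w =>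
  inferInstanceAs (Decidable (qa (φ v) (φ w) = true))

theorem blow_free (φ : V → Fin 9) (hinj : ∀ v w, φ v = φ w → (φ v).val < 7 → v = w) :
    (cycleGraph 5).Free (blow φ) := by
  rintro ⟨f⟩
  have hf := f.injective
  have h01 : (blow φ).Adj (f 0) (f 1) := f.toHom.map_adj (by decide)
  have h12 : (blow φ).Adj (f 1) (f 2) := f.toHom.map_adj (by decide)
  have h23 : (blow φ).Adj (f 2) (f 3) := f.toHom.map_adj (by decide)
  have h34 : (blow φ).Adj (f 3) (f 4) := f.toHom.map_adj (by decide)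
  have h40 : (blow φ).Adj (f 4) (f 0) := f.toHom.map_adj (by decide)
  rcases qa_c5 _ _ _ _ _ h01 h12 h23 h34 h40 with h | h | h | h | h <;>
    exact absurd (hf (hinj _ _ h.1 h.2)) (by decide)

theorem blow_edges [Fintype V] [DecidableEq V] (φ : V → Fin 9) (sz : Fin 9 → ℕ)
    (hsz : ∀ p, (Finset.univ.filter (fun v => φ v = p)).card = sz p) :
    2 * (blow φ).edgeFinset.card = ∑ p, ∑ q, if qa p q = true then sz p * sz q else 0 := by
  rw [← sum_degrees_eq_twice_card_edges]
  have hsum : ∀ g : Fin 9 → ℕ, ∑ v, g (φ v) = ∑ p, sz p * g p := by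
    intro g
    rw [← Finset.sum_fiberwise (s := Finset.univ) (g := φ)]
    refine Finset.sum_congr rfl fun p _ => ?_
    rw [← hsz p, Finset.sum_congr rfl (g := fun _ => g p)]
    · simp
    · intro v hv
      rw [(Finset.mem_filter.1 hv).2]
  have hdeg : ∀ v, (blow φ).degree v = ∑ q, if qa (φ v) q = true then sz q else 0 := by
    intro v
    rw [← card_neighborFinset_eq_degree, neighborFinset_eq_filter, Finset.card_filter]
    have := hsum (fun q => if qa (φ v) q = true then 1 else 0)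
    simp only [mul_ite, mul_one, mul_zero] at this
    rw [← this]
    rfl
  rw [Finset.sum_congr rfl (fun v _ => hdeg v),
    hsum (fun p => ∑ q, if qa p q = true then sz q else 0)]
  refine Finset.sum_congr rfl fun p _ => ?_
  rw [Finset.mul_sum]
  refine Finset.sum_congr rfl fun q _ => ?_
  split_ifs <;> simp

theorem mono3 : ∀ c : Fin 7 → Fin 2, 3 ≤ (Finset.univ.filter (fun e : Fin 7 × Fin 7 =>
    e.1 < e.2 ∧ qa (e.1.castLE (by norm_num)) (e.2.castLE (by norm_num)) = true ∧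
      c e.1 = c e.2)).card := by
  decide +kernel

def col (p : Fin 9) : Fin 2 := if p = 0 ∨ p = 1 ∨ p = 6 ∨ p = 8 then 1 else 0

theorem col_ok : ∀ p q : Fin 9, qa p q = true → col p = col q →
    (p = 0 ∧ q = 1) ∨ (p = 1 ∧ q = 0) ∨ (p = 2 ∧ q = 5) ∨ (p = 5 ∧ q = 2) ∨
      (p = 3 ∧ q = 4) ∨ (p = 4 ∧ q = 3) := by
  decide +kernel

theorem blow_gamma (φ : V → Fin 9) (ι : Fin 9 → V) (hι : ∀ p, φ (ι p) = p)
    (hinj : ∀ v w, φ v = φ w → (φ v).val < 7 → v = w) : gamma2 (blow φ) = 3 := by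
  classical
  have ιinj : Function.Injective ι := fun p q h => by rw [← hι p, ← hι q, h]
  have hv : ∀ v (p : Fin 9), φ v = p → p.val < 7 → v = ι p := by
    intro v p h hp
    exact hinj _ _ (by rw [h, hι]) (by rw [h]; exact hp)
  have lower : ∀ m ∈ {m : ℕ | ∃ F : Finset (Sym2 V), (F : Set (Sym2 V)) ⊆ (blow φ).edgeSet ∧
      F.card = m ∧ ((blow φ).deleteEdges (F : Set (Sym2 V))).IsBipartite}, 3 ≤ m := by
    rintro m ⟨F, -, rfl, ⟨C⟩⟩
    refine (mono3 (fun i => C (ι (i.castLE (by norm_num))))).trans ?_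
    refine Finset.card_le_card_of_injOn
      (fun e => s(ι (e.1.castLE (by norm_num)), ι (e.2.castLE (by norm_num)))) ?_ ?_
    · intro e he
      obtain ⟨-, -, h2, h3⟩ := Finset.mem_filter.1 (Finset.mem_coe.1 he)
      by_contra hF
      refine C.valid ?_ h3
      rw [deleteEdges_adj]
      exact ⟨by rw [blow_adj, hι, hι]; exact h2, hF⟩
    · intro e he e' he' h
      obtain ⟨-, h1, -⟩ := Finset.mem_filter.1 (Finset.mem_coe.1 he)
      obtain ⟨-, h1', -⟩ := Finset.mem_filter.1 (Finset.mem_coe.1 he')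
      rcases Sym2.eq_iff.1 h with ⟨ha, hb⟩ | ⟨ha, hb⟩
      · have ha' := Fin.castLE_injective _ (ιinj ha)
        have hb' := Fin.castLE_injective _ (ιinj hb)
        exact Prod.ext ha' hb'
      · have ha' := Fin.castLE_injective _ (ιinj ha)
        have hb' := Fin.castLE_injective _ (ιinj hb)
        rw [ha', hb'] at h1
        exact absurd h1 (not_lt.2 h1'.le)
  have mem : 3 ∈ {m : ℕ | ∃ F : Finset (Sym2 V), (F : Set (Sym2 V)) ⊆ (blow φ).edgeSet ∧
      F.card = m ∧ ((blow φ).deleteEdges (F : Set (Sym2 V))).IsBipartite} := by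
    refine ⟨{s(ι 0, ι 1), s(ι 2, ι 5), s(ι 3, ι 4)}, ?_, ?_, ?_⟩
    · intro e he
      simp only [Finset.coe_insert, Finset.coe_singleton, Set.mem_insert_iff,
        Set.mem_singleton_iff] at he
      rcases he with rfl | rfl | rfl <;>
        (rw [mem_edgeSet, blow_adj, hι, hι]; decide +kernel)
    · rw [Finset.card_eq_three]
      refine ⟨_, _, _, ?_, ?_, ?_, rfl⟩ <;> simp [ιinj.eq_iff]
    · refine ⟨Coloring.mk (fun v => col (φ v)) ?_⟩
      intro v w h hc
      rw [deleteEdges_adj] at h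
      apply h.2
      rcases col_ok _ _ h.1 hc with ⟨h1, h2⟩ | ⟨h1, h2⟩ | ⟨h1, h2⟩ | ⟨h1, h2⟩ | ⟨h1, h2⟩ | ⟨h1, h2⟩ <;>
        (rw [hv v _ h1 (by decide), hv w _ h2 (by decide)]; simp)
  exact le_antisymm (Nat.sInf_le mem) (lower _ (Nat.sInf_mem ⟨3, mem⟩))

theorem preconnected_of_hub (G : SimpleGraph V) (S : Set V) (h : V) (hh : h ∈ S)
    (hr : ∀ w ∈ S, Relation.ReflTransGen (fun a b => a ∈ S ∧ b ∈ S ∧ G.Adj a b) h w) :
    (G.induce S).Preconnected := by
  have key : ∀ w, Relation.ReflTransGen (fun a b => a ∈ S ∧ b ∈ S ∧ G.Adj a b) h w →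
      ∀ hw : w ∈ S, (G.induce S).Reachable ⟨h, hh⟩ ⟨w, hw⟩ := by
    intro w hw
    induction hw with
    | refl => intro _; rfl
    | tail _ hbc ih =>
      intro hc
      exact (ih hbc.1).trans (Adj.reachable hbc.2.2)
  intro a b
  exact (key a.1 (hr a.1 a.2) a.2).symm.trans (key b.1 (hr b.1 b.2) b.2)

/-- Connectivity after deleting everything outside `S`, where `S` misses at most one vertex. -/
theorem blow_preconn (φ : V → Fin 9) (ι : Fin 9 → V) (hι : ∀ p, φ (ι p) = p)
    (hinj : ∀ v w, φ v = φ w → (φ v).val < 7 → v = w)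
    (S : Set V) (x y : V) (hx : φ x = 7) (hy : φ y = 8) (hxS : x ∈ S) (hyS : y ∈ S)
    (hS : ∀ p q : Fin 9, p ≠ q → ι p ∈ S ∨ ι q ∈ S) :
    ((blow φ).induce S).Preconnected := by
  have hv : ∀ v (p : Fin 9), φ v = p → p.val < 7 → v = ι p := by
    intro v p h hp
    exact hinj _ _ (by rw [h, hι]) (by rw [h]; exact hp)
  apply preconnected_of_hub _ S x hxS
  set R := Relation.ReflTransGen (fun a b => a ∈ S ∧ b ∈ S ∧ (blow φ).Adj a b) x with hR
  have step : ∀ a b (p q : Fin 9), R a → a ∈ S → b ∈ S → φ a = p → φ b = q → qa p q = true →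
      R b := by
    intro a b p q ha haS hbS hp hq hpq
    exact Relation.ReflTransGen.tail ha ⟨haS, hbS, by rw [blow_adj, hp, hq]; exact hpq⟩
  have rx : R x := Relation.ReflTransGen.refl
  have ry : R y := step x y 7 8 rx hxS hyS hx hy (by decide +kernel)
  have stp : ∀ p q : Fin 9, qa p q = true → ι p ∈ S → R (ι p) → ι q ∈ S → R (ι q) :=
    fun p q hpq hp rp hq => step _ _ p q rp hp hq (hι p) (hι q) hpq
  have r5 : ι 5 ∈ S → R (ι 5) := fun h => step y _ 8 5 ry hyS h hy (hι _) (by decide +kernel)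
  have r6 : ι 6 ∈ S → R (ι 6) := fun h => step x _ 7 6 rx hxS h hx (hι _) (by decide +kernel)
  have r0 : ι 0 ∈ S → R (ι 0) := by
    intro h
    by_cases h5 : ι 5 ∈ S
    · exact stp 5 0 (by decide +kernel) h5 (r5 h5) h
    · have h6 := (hS 5 6 (by decide)).resolve_left h5
      have h3 := (hS 5 3 (by decide)).resolve_left h5
      exact stp 3 0 (by decide +kernel) h3 (stp 6 3 (by decide +kernel) h6 (r6 h6) h3) h
  have r12 : ∀ p : Fin 9, qa 5 p = true → qa 0 p = true → ι p ∈ S → R (ι p) := by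
    intro p h1 h2 h
    by_cases h5 : ι 5 ∈ S
    · exact stp 5 p h1 h5 (r5 h5) h
    · have h0 := (hS 5 0 (by decide)).resolve_left h5
      exact stp 0 p h2 h0 (r0 h0) h
  have r34 : ∀ p : Fin 9, qa 6 p = true → qa 0 p = true → ι p ∈ S → R (ι p) := by
    intro p h1 h2 h
    by_cases h6 : ι 6 ∈ S
    · exact stp 6 p h1 h6 (r6 h6) h
    · have h0 := (hS 6 0 (by decide)).resolve_left h6
      exact stp 0 p h2 h0 (r0 h0) h
  intro w hw
  have hcase : φ w = 0 ∨ φ w = 1 ∨ φ w = 2 ∨ φ w = 3 ∨ φ w = 4 ∨ φ w = 5 ∨ φ w = 6 ∨ φ w = 7 ∨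
      φ w = 8 := by
    generalize φ w = p
    revert p
    decide
  rcases hcase with h | h | h | h | h | h | h | h | h
  · have e := hv w _ h (by decide); rw [e] at hw ⊢; exact r0 hw
  · have e := hv w _ h (by decide); rw [e] at hw ⊢
    exact r12 1 (by decide +kernel) (by decide +kernel) hw
  · have e := hv w _ h (by decide); rw [e] at hw ⊢
    exact r12 2 (by decide +kernel) (by decide +kernel) hw
  · have e := hv w _ h (by decide); rw [e] at hw ⊢
    exact r34 3 (by decide +kernel) (by decide +kernel) hw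
  · have e := hv w _ h (by decide); rw [e] at hw ⊢
    exact r34 4 (by decide +kernel) (by decide +kernel) hw
  · have e := hv w _ h (by decide); rw [e] at hw ⊢; exact r5 hw
  · have e := hv w _ h (by decide); rw [e] at hw ⊢; exact r6 hw
  · exact step y w 8 7 ry hyS hw hy h (by decide +kernel)
  · exact step x w 7 8 rx hxS hw hx h (by decide +kernel)

theorem blow_noCut (φ : V → Fin 9) (ι : Fin 9 → V) (hι : ∀ p, φ (ι p) = p)
    (hinj : ∀ v w, φ v = φ w → (φ v).val < 7 → v = w)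
    (h7 : ∀ v, ∃ x, x ≠ v ∧ φ x = 7) (h8 : ∀ v, ∃ y, y ≠ v ∧ φ y = 8) :
    NoCutVertex (blow φ) Set.univ := by
  have ιinj : Function.Injective ι := fun p q h => by rw [← hι p, ← hι q, h]
  constructor
  · have : Nonempty (Set.univ : Set V) := ⟨⟨ι 0, trivial⟩⟩
    exact Connected.mk (blow_preconn φ ι hι hinj _ (ι 7) (ι 8) (hι _) (hι _) trivial trivial
      (fun _ _ _ => Or.inl trivial))
  · intro v _
    obtain ⟨x, hxv, hx⟩ := h7 v
    obtain ⟨y, hyv, hy⟩ := h8 v
    refine blow_preconn φ ι hι hinj _ x y hx hy ⟨trivial, hxv⟩ ⟨trivial, hyv⟩ ?_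
    intro p q hpq
    by_cases h : ι p = v
    · right
      refine ⟨trivial, fun h' => hpq (ιinj ?_)⟩
      rw [h]; exact (Set.mem_singleton_iff.1 h').symm
    · left; exact ⟨trivial, h⟩

def szf (a c : ℕ) (p : Fin 9) : ℕ := if p = 7 then a else if p = 8 then c else 1

theorem exists_phi (n a c : ℕ) (hn : n = 7 + a + c) : ∃ φ : Fin n → Fin 9,
    ∀ p, (Finset.univ.filter (fun v => φ v = p)).card = szf a c p := by
  have hcard : Fintype.card (Fin n) = Fintype.card (Σ p : Fin 9, Fin (szf a c p)) := by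
    rw [Fintype.card_sigma]
    simp only [Fintype.card_fin]
    simp [Fin.sum_univ_succ, szf, hn]
    omega
  let e := Fintype.equivOfCardEq hcard
  refine ⟨fun v => (e v).1, fun p => ?_⟩
  have : (Finset.univ.filter (fun v => (e v).1 = p)).card =
      (Finset.univ.filter (fun v : (Σ p : Fin 9, Fin (szf a c p)) => v.1 = p)).card := by
    apply Finset.card_bij (fun v _ => e v)
    · intro v hv; simpa using hv
    · intro v _ w _ h; exact e.injective h
    · intro w hw
      exact ⟨e.symm w, by simpa using hw, by simp⟩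
  rw [this, Finset.card_filter, Fintype.sum_sigma, Finset.sum_eq_single p]
  · simp
  · intro q _ hq; simp [hq]
  · simp

theorem main (n : ℕ) (hn : 11 ≤ n) : ∃ G : SimpleGraph (Fin n),
    (cycleGraph 5).Free G ∧ (n - 5) ^ 2 / 4 + 9 ≤ G.edgeSet.ncard ∧ gamma2 G = 3 ∧
      ¬ IsTss 2 3 n G := by
  obtain ⟨φ, hφ⟩ := exists_phi n ((n - 5) / 2 - 1) ((n - 4) / 2 - 1) (by omega)
  have hpos : ∀ p, ∃ v, φ v = p := by
    intro p
    have : 0 < (Finset.univ.filter (fun v => φ v = p)).card := by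
      rw [hφ]; unfold szf; split_ifs <;> omega
    obtain ⟨v, hv⟩ := Finset.card_pos.1 this
    exact ⟨v, (Finset.mem_filter.1 hv).2⟩
  choose ι hι using hpos
  have hinj : ∀ v w, φ v = φ w → (φ v).val < 7 → v = w := by
    intro v w h hlt
    have : (Finset.univ.filter (fun u => φ u = φ v)).card ≤ 1 := by
      rw [hφ]; unfold szf
      split_ifs with h1 h2
      · rw [h1] at hlt; exact absurd hlt (by decide)
      · rw [h2] at hlt; exact absurd hlt (by decide)
      · exact le_rfl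
    exact Finset.card_le_one.1 this v (by simp) w (by simp [h])
  have htwo : ∀ p : Fin 9, (p = 7 ∨ p = 8) → ∀ v, ∃ x, x ≠ v ∧ φ x = p := by
    intro p hp v
    have : 1 < (Finset.univ.filter (fun u => φ u = p)).card := by
      rw [hφ]; unfold szf
      rcases hp with rfl | rfl
      · simp only [if_true]; omega
      · rw [if_neg (by decide), if_pos rfl]; omega
    obtain ⟨x, hx, hxv⟩ := Finset.exists_mem_ne this v
    exact ⟨x, hxv, (Finset.mem_filter.1 hx).2⟩
  refine ⟨blow φ, blow_free φ hinj, ?_, blow_gamma φ ι hι hinj, ?_⟩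
  · have h := blow_edges φ _ hφ
    rw [← coe_edgeFinset, Set.ncard_coe_finset]
    obtain ⟨a, ha⟩ : ∃ a, a = (n - 5) / 2 - 1 := ⟨_, rfl⟩
    obtain ⟨c, hc⟩ : ∃ c, c = (n - 4) / 2 - 1 := ⟨_, rfl⟩
    rw [← ha, ← hc] at h
    have h2 : (∑ p, ∑ q, if qa p q = true then szf a c p * szf a c q else 0) =
        2 * (11 + a + c + a * c) := by
      simp [Fin.sum_univ_succ, szf, qa, qE]
      ring
    rw [h2] at h
    have h3 : (blow φ).edgeFinset.card = 11 + a + c + a * c := by omega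
    rw [h3]
    have h4 : (n - 5) ^ 2 / 4 ≤ (a + 1) * (c + 1) := by
      rcases Nat.even_or_odd' (n - 5) with ⟨t, ht | ht⟩
      · have e1 : a + 1 = t := by omega
        have e2 : c + 1 = t := by omega
        rw [ht, e1, e2]
        apply Nat.div_le_of_le_mul
        nlinarith
      · have e1 : a + 1 = t := by omega
        have e2 : c + 1 = t + 1 := by omega
        rw [ht, e1, e2]
        have : (2 * t + 1) ^ 2 = 4 * (t * (t + 1)) + 1 := by ring
        omega
    nlinarith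
  · rintro ⟨-, S₁, S₂, S₃, h12, -, -, hB, -⟩
    have hu := blow_noCut φ ι hι hinj (htwo 7 (Or.inl rfl)) (htwo 8 (Or.inr rfl))
    have hall : ∀ S, IsBlock (blow φ) S → S = Set.univ := fun S hS =>
      Set.eq_univ_of_univ_subset (hS.2 hu (Set.subset_univ S))
    exact h12 ((hall S₁ ((hB _).2 (Or.inl rfl))).trans
      (hall S₂ ((hB _).2 (Or.inr (Or.inl rfl)))).symm)

end Pool.Agent.Lib.MP_1ed8ce_co
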